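import Pool.Agent.TWP.Eng4V

/-! radii (numerators over 4096) and table of the charts of `β = 4` -/

namespace TWP.C4

def rad4 : List ℕ := [3072, 2842, 2629, 2432, 2250, 2081, 1925, 1781, 1647, 1524, 1410, 1304, 1206, 1116, 1032, 955, 883, 817, 756, 699, 647, 598, 553, 512]

def tab4 : K.Tab := [(4096, 6977), (3866, 7534), (3653, 8145), (3456, 8816), (3274, 9496), (3105, 10286), (2949, 11143), (2805, 11976), (2671, 13044), (2548, 14075), (2434, 15139), (2328, 16375), (2230, 17782), (2140, 18904), (2056, 20226), (1979, 21114), (1907, 22061), (1841, 22560), (1780, 22494), (1723, 22023), (1671, 20475), (1622, 17995), (1577, 14045), (1536, 0)]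

end TWP.C4
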