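import Pool.Agent.TWP.C4.D1
import Pool.Agent.TWP.C4.Tab

namespace TWP.C4

theorem k1 : K.checkM4 11 23 60 1024 3072 tab4 ch1.cn ch1.ln ch1.eta ch1.k ch1.etaT ch1.k4
    ch1.L ch1.Q ch1.T = true := by decide +kernel

theorem v1 : K.okV 60 ch1 = true := by decide +kernel

end TWP.C4
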