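import Pool.Agent.TWP.C4.D10
import Pool.Agent.TWP.C4.Tab

namespace TWP.C4

theorem k10 : K.checkM4 11 23 60 1024 3072 tab4 ch10.cn ch10.ln ch10.eta ch10.k ch10.etaT ch10.k4
    ch10.L ch10.Q ch10.T = true := by decide +kernel

theorem v10 : K.okV 60 ch10 = true := by decide +kernel

end TWP.C4
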