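import Pool.Agent.TWP.C4.D11
import Pool.Agent.TWP.C4.Tab

namespace TWP.C4

theorem k11 : K.checkM4 11 23 60 1024 3072 tab4 ch11.cn ch11.ln ch11.eta ch11.k ch11.etaT ch11.k4
    ch11.L ch11.Q ch11.T = true := by decide +kernel

theorem v11 : K.okV 60 ch11 = true := by decide +kernel

end TWP.C4
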