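import Pool.Agent.TWP.C4.D12
import Pool.Agent.TWP.C4.Tab

namespace TWP.C4

theorem k12 : K.checkM4 11 23 60 1024 3072 tab4 ch12.cn ch12.ln ch12.eta ch12.k ch12.etaT ch12.k4
    ch12.L ch12.Q ch12.T = true := by decide +kernel

theorem v12 : K.okV 60 ch12 = true := by decide +kernel

end TWP.C4
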