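import Pool.Agent.TWP.C4.D13
import Pool.Agent.TWP.C4.Tab

namespace TWP.C4

theorem k13 : K.checkM4 11 23 60 1024 3072 tab4 ch13.cn ch13.ln ch13.eta ch13.k ch13.etaT ch13.k4
    ch13.L ch13.Q ch13.T = true := by decide +kernel

theorem v13 : K.okV 60 ch13 = true := by decide +kernel

end TWP.C4
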