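import Pool.Agent.TWP.C4.D14
import Pool.Agent.TWP.C4.Tab

namespace TWP.C4

theorem k14 : K.checkM4 11 23 60 1024 3072 tab4 ch14.cn ch14.ln ch14.eta ch14.k ch14.etaT ch14.k4
    ch14.L ch14.Q ch14.T = true := by decide +kernel

theorem v14 : K.okV 60 ch14 = true := by decide +kernel

end TWP.C4
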