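import Pool.Agent.TWP.C4.D16
import Pool.Agent.TWP.C4.Tab

namespace TWP.C4

theorem k16 : K.checkM4 11 23 60 1024 3072 tab4 ch16.cn ch16.ln ch16.eta ch16.k ch16.etaT ch16.k4
    ch16.L ch16.Q ch16.T = true := by decide +kernel

theorem v16 : K.okV 60 ch16 = true := by decide +kernel

end TWP.C4
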