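import Pool.Agent.TWP.C4.D17
import Pool.Agent.TWP.C4.Tab

namespace TWP.C4

theorem k17 : K.checkM4 11 23 60 1024 3072 tab4 ch17.cn ch17.ln ch17.eta ch17.k ch17.etaT ch17.k4
    ch17.L ch17.Q ch17.T = true := by decide +kernel

theorem v17 : K.okV 60 ch17 = true := by decide +kernel

end TWP.C4
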