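import Pool.Agent.TWP.C4.D18
import Pool.Agent.TWP.C4.Tab

namespace TWP.C4

theorem k18 : K.checkM4 11 23 60 1024 3072 tab4 ch18.cn ch18.ln ch18.eta ch18.k ch18.etaT ch18.k4
    ch18.L ch18.Q ch18.T = true := by decide +kernel

theorem v18 : K.okV 60 ch18 = true := by decide +kernel

end TWP.C4
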