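import Pool.Agent.TWP.C4.D19
import Pool.Agent.TWP.C4.Tab

namespace TWP.C4

theorem k19 : K.checkM4 11 23 60 1024 3072 tab4 ch19.cn ch19.ln ch19.eta ch19.k ch19.etaT ch19.k4
    ch19.L ch19.Q ch19.T = true := by decide +kernel

theorem v19 : K.okV 60 ch19 = true := by decide +kernel

end TWP.C4
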