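import Pool.Agent.TWP.C4.D2
import Pool.Agent.TWP.C4.Tab

namespace TWP.C4

theorem k2 : K.checkM4 11 23 60 1024 3072 tab4 ch2.cn ch2.ln ch2.eta ch2.k ch2.etaT ch2.k4
    ch2.L ch2.Q ch2.T = true := by decide +kernel

theorem v2 : K.okV 60 ch2 = true := by decide +kernel

end TWP.C4
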