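import Pool.Agent.TWP.C4.D20
import Pool.Agent.TWP.C4.Tab

namespace TWP.C4

theorem k20 : K.checkM4 11 23 60 1024 3072 tab4 ch20.cn ch20.ln ch20.eta ch20.k ch20.etaT ch20.k4
    ch20.L ch20.Q ch20.T = true := by decide +kernel

theorem v20 : K.okV 60 ch20 = true := by decide +kernel

end TWP.C4
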