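import Pool.Agent.TWP.C4.D21
import Pool.Agent.TWP.C4.Tab

namespace TWP.C4

theorem k21 : K.checkM4 11 23 60 1024 3072 tab4 ch21.cn ch21.ln ch21.eta ch21.k ch21.etaT ch21.k4
    ch21.L ch21.Q ch21.T = true := by decide +kernel

theorem v21 : K.okV 60 ch21 = true := by decide +kernel

end TWP.C4
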