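import Pool.Agent.TWP.C4.D22
import Pool.Agent.TWP.C4.Tab

namespace TWP.C4

theorem k22 : K.checkM4 11 23 60 1024 3072 tab4 ch22.cn ch22.ln ch22.eta ch22.k ch22.etaT ch22.k4
    ch22.L ch22.Q ch22.T = true := by decide +kernel

theorem v22 : K.okV 60 ch22 = true := by decide +kernel

end TWP.C4
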