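import Pool.Agent.TWP.C4.D23
import Pool.Agent.TWP.C4.Tab

namespace TWP.C4

theorem k23 : K.checkM4 11 23 60 1024 3072 tab4 ch23.cn ch23.ln ch23.eta ch23.k ch23.etaT ch23.k4
    ch23.L ch23.Q ch23.T = true := by decide +kernel

theorem v23 : K.okV 60 ch23 = true := by decide +kernel

end TWP.C4
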