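import Pool.Agent.TWP.C4.D24
import Pool.Agent.TWP.C4.Tab

namespace TWP.C4

theorem k24 : K.checkM4 11 23 60 1024 3072 tab4 ch24.cn ch24.ln ch24.eta ch24.k ch24.etaT ch24.k4
    ch24.L ch24.Q ch24.T = true := by decide +kernel

theorem v24 : K.okV 60 ch24 = true := by decide +kernel

end TWP.C4
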