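import Pool.Agent.TWP.C4.D25
import Pool.Agent.TWP.C4.Tab

namespace TWP.C4

theorem k25 : K.checkM4 11 23 60 1024 3072 tab4 ch25.cn ch25.ln ch25.eta ch25.k ch25.etaT ch25.k4
    ch25.L ch25.Q ch25.T = true := by decide +kernel

theorem v25 : K.okV 60 ch25 = true := by decide +kernel

end TWP.C4
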