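import Pool.Agent.TWP.C4.D26
import Pool.Agent.TWP.C4.Tab

namespace TWP.C4

theorem k26 : K.checkM4 11 23 60 1024 3072 tab4 ch26.cn ch26.ln ch26.eta ch26.k ch26.etaT ch26.k4
    ch26.L ch26.Q ch26.T = true := by decide +kernel

theorem v26 : K.okV 60 ch26 = true := by decide +kernel

end TWP.C4
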