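import Pool.Agent.TWP.C4.D27
import Pool.Agent.TWP.C4.Tab

namespace TWP.C4

theorem k27 : K.checkM4 11 23 60 1024 3072 tab4 ch27.cn ch27.ln ch27.eta ch27.k ch27.etaT ch27.k4
    ch27.L ch27.Q ch27.T = true := by decide +kernel

theorem v27 : K.okV 60 ch27 = true := by decide +kernel

end TWP.C4
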