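import Pool.Agent.TWP.C4.D28
import Pool.Agent.TWP.C4.Tab

namespace TWP.C4

theorem k28 : K.checkM4 11 23 60 1024 3072 tab4 ch28.cn ch28.ln ch28.eta ch28.k ch28.etaT ch28.k4
    ch28.L ch28.Q ch28.T = true := by decide +kernel

theorem v28 : K.okV 60 ch28 = true := by decide +kernel

end TWP.C4
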