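import Pool.Agent.TWP.C4.D29
import Pool.Agent.TWP.C4.Tab

namespace TWP.C4

theorem k29 : K.checkM4 11 23 60 1024 3072 tab4 ch29.cn ch29.ln ch29.eta ch29.k ch29.etaT ch29.k4
    ch29.L ch29.Q ch29.T = true := by decide +kernel

theorem v29 : K.okV 60 ch29 = true := by decide +kernel

end TWP.C4
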