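import Pool.Agent.TWP.C4.D3
import Pool.Agent.TWP.C4.Tab

namespace TWP.C4

theorem k3 : K.checkM4 11 23 60 1024 3072 tab4 ch3.cn ch3.ln ch3.eta ch3.k ch3.etaT ch3.k4
    ch3.L ch3.Q ch3.T = true := by decide +kernel

theorem v3 : K.okV 60 ch3 = true := by decide +kernel

end TWP.C4
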