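import Pool.Agent.TWP.C4.D30
import Pool.Agent.TWP.C4.Tab

namespace TWP.C4

theorem k30 : K.checkM4 11 23 60 1024 3072 tab4 ch30.cn ch30.ln ch30.eta ch30.k ch30.etaT ch30.k4
    ch30.L ch30.Q ch30.T = true := by decide +kernel

theorem v30 : K.okV 60 ch30 = true := by decide +kernel

end TWP.C4
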