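import Pool.Agent.TWP.C4.D32
import Pool.Agent.TWP.C4.Tab

namespace TWP.C4

theorem k32 : K.checkM4 11 23 60 1024 3072 tab4 ch32.cn ch32.ln ch32.eta ch32.k ch32.etaT ch32.k4
    ch32.L ch32.Q ch32.T = true := by decide +kernel

theorem v32 : K.okV 60 ch32 = true := by decide +kernel

end TWP.C4
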