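import Pool.Agent.TWP.C4.D33
import Pool.Agent.TWP.C4.Tab

namespace TWP.C4

theorem k33 : K.checkM4 11 23 60 1024 3072 tab4 ch33.cn ch33.ln ch33.eta ch33.k ch33.etaT ch33.k4
    ch33.L ch33.Q ch33.T = true := by decide +kernel

theorem v33 : K.okV 60 ch33 = true := by decide +kernel

end TWP.C4
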