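import Pool.Agent.TWP.C4.D34
import Pool.Agent.TWP.C4.Tab

namespace TWP.C4

theorem k34 : K.checkM4 11 23 60 1024 3072 tab4 ch34.cn ch34.ln ch34.eta ch34.k ch34.etaT ch34.k4
    ch34.L ch34.Q ch34.T = true := by decide +kernel

theorem v34 : K.okV 60 ch34 = true := by decide +kernel

end TWP.C4
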