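import Pool.Agent.TWP.C4.D35
import Pool.Agent.TWP.C4.Tab

namespace TWP.C4

theorem k35 : K.checkM4 11 23 60 1024 3072 tab4 ch35.cn ch35.ln ch35.eta ch35.k ch35.etaT ch35.k4
    ch35.L ch35.Q ch35.T = true := by decide +kernel

theorem v35 : K.okV 60 ch35 = true := by decide +kernel

end TWP.C4
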