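import Pool.Agent.TWP.C4.D36
import Pool.Agent.TWP.C4.Tab

namespace TWP.C4

theorem k36 : K.checkM4 11 23 60 1024 3072 tab4 ch36.cn ch36.ln ch36.eta ch36.k ch36.etaT ch36.k4
    ch36.L ch36.Q ch36.T = true := by decide +kernel

theorem v36 : K.okV 60 ch36 = true := by decide +kernel

end TWP.C4
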