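import Pool.Agent.TWP.C4.D37
import Pool.Agent.TWP.C4.Tab

namespace TWP.C4

theorem k37 : K.checkM4 11 23 60 1024 3072 tab4 ch37.cn ch37.ln ch37.eta ch37.k ch37.etaT ch37.k4
    ch37.L ch37.Q ch37.T = true := by decide +kernel

theorem v37 : K.okV 60 ch37 = true := by decide +kernel

end TWP.C4
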