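import Pool.Agent.TWP.C4.D38
import Pool.Agent.TWP.C4.Tab

namespace TWP.C4

theorem k38 : K.checkM4 11 23 60 1024 3072 tab4 ch38.cn ch38.ln ch38.eta ch38.k ch38.etaT ch38.k4
    ch38.L ch38.Q ch38.T = true := by decide +kernel

theorem v38 : K.okV 60 ch38 = true := by decide +kernel

end TWP.C4
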