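import Pool.Agent.TWP.C4.D39
import Pool.Agent.TWP.C4.Tab

namespace TWP.C4

theorem k39 : K.checkM4 11 23 60 1024 3072 tab4 ch39.cn ch39.ln ch39.eta ch39.k ch39.etaT ch39.k4
    ch39.L ch39.Q ch39.T = true := by decide +kernel

theorem v39 : K.okV 60 ch39 = true := by decide +kernel

end TWP.C4
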