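import Pool.Agent.TWP.C4.D4
import Pool.Agent.TWP.C4.Tab

namespace TWP.C4

theorem k4 : K.checkM4 11 23 60 1024 3072 tab4 ch4.cn ch4.ln ch4.eta ch4.k ch4.etaT ch4.k4
    ch4.L ch4.Q ch4.T = true := by decide +kernel

theorem v4 : K.okV 60 ch4 = true := by decide +kernel

end TWP.C4
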