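import Pool.Agent.TWP.C4.D40
import Pool.Agent.TWP.C4.Tab

namespace TWP.C4

theorem k40 : K.checkM4 11 23 60 1024 3072 tab4 ch40.cn ch40.ln ch40.eta ch40.k ch40.etaT ch40.k4
    ch40.L ch40.Q ch40.T = true := by decide +kernel

theorem v40 : K.okV 60 ch40 = true := by decide +kernel

end TWP.C4
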