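import Pool.Agent.TWP.C4.D41
import Pool.Agent.TWP.C4.Tab

namespace TWP.C4

theorem k41 : K.checkM4 11 23 60 1024 3072 tab4 ch41.cn ch41.ln ch41.eta ch41.k ch41.etaT ch41.k4
    ch41.L ch41.Q ch41.T = true := by decide +kernel

theorem v41 : K.okV 60 ch41 = true := by decide +kernel

end TWP.C4
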