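import Pool.Agent.TWP.C4.D42
import Pool.Agent.TWP.C4.Tab

namespace TWP.C4

theorem k42 : K.checkM4 11 23 60 1024 3072 tab4 ch42.cn ch42.ln ch42.eta ch42.k ch42.etaT ch42.k4
    ch42.L ch42.Q ch42.T = true := by decide +kernel

theorem v42 : K.okV 60 ch42 = true := by decide +kernel

end TWP.C4
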