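import Pool.Agent.TWP.C4.D43
import Pool.Agent.TWP.C4.Tab

namespace TWP.C4

theorem k43 : K.checkM4 11 23 60 1024 3072 tab4 ch43.cn ch43.ln ch43.eta ch43.k ch43.etaT ch43.k4
    ch43.L ch43.Q ch43.T = true := by decide +kernel

theorem v43 : K.okV 60 ch43 = true := by decide +kernel

end TWP.C4
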