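import Pool.Agent.TWP.C4.D44
import Pool.Agent.TWP.C4.Tab

namespace TWP.C4

theorem k44 : K.checkM4 11 23 60 1024 3072 tab4 ch44.cn ch44.ln ch44.eta ch44.k ch44.etaT ch44.k4
    ch44.L ch44.Q ch44.T = true := by decide +kernel

theorem v44 : K.okV 60 ch44 = true := by decide +kernel

end TWP.C4
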