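import Pool.Agent.TWP.C4.D45
import Pool.Agent.TWP.C4.Tab

namespace TWP.C4

theorem k45 : K.checkM4 11 23 60 1024 3072 tab4 ch45.cn ch45.ln ch45.eta ch45.k ch45.etaT ch45.k4
    ch45.L ch45.Q ch45.T = true := by decide +kernel

theorem v45 : K.okV 60 ch45 = true := by decide +kernel

end TWP.C4
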