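import Pool.Agent.TWP.C4.D46
import Pool.Agent.TWP.C4.Tab

namespace TWP.C4

theorem k46 : K.checkM4 11 23 60 1024 3072 tab4 ch46.cn ch46.ln ch46.eta ch46.k ch46.etaT ch46.k4
    ch46.L ch46.Q ch46.T = true := by decide +kernel

theorem v46 : K.okV 60 ch46 = true := by decide +kernel

end TWP.C4
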