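import Pool.Agent.TWP.C4.D48
import Pool.Agent.TWP.C4.Tab

namespace TWP.C4

theorem k48 : K.checkM4 11 23 60 1024 3072 tab4 ch48.cn ch48.ln ch48.eta ch48.k ch48.etaT ch48.k4
    ch48.L ch48.Q ch48.T = true := by decide +kernel

theorem v48 : K.okV 60 ch48 = true := by decide +kernel

end TWP.C4
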