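import Pool.Agent.TWP.C4.D49
import Pool.Agent.TWP.C4.Tab

namespace TWP.C4

theorem k49 : K.checkM4 11 23 60 1024 3072 tab4 ch49.cn ch49.ln ch49.eta ch49.k ch49.etaT ch49.k4
    ch49.L ch49.Q ch49.T = true := by decide +kernel

theorem v49 : K.okV 60 ch49 = true := by decide +kernel

end TWP.C4
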