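import Pool.Agent.TWP.C4.D5
import Pool.Agent.TWP.C4.Tab

namespace TWP.C4

theorem k5 : K.checkM4 11 23 60 1024 3072 tab4 ch5.cn ch5.ln ch5.eta ch5.k ch5.etaT ch5.k4
    ch5.L ch5.Q ch5.T = true := by decide +kernel

theorem v5 : K.okV 60 ch5 = true := by decide +kernel

end TWP.C4
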