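import Pool.Agent.TWP.C4.D50
import Pool.Agent.TWP.C4.Tab

namespace TWP.C4

theorem k50 : K.checkM4 11 23 60 1024 3072 tab4 ch50.cn ch50.ln ch50.eta ch50.k ch50.etaT ch50.k4
    ch50.L ch50.Q ch50.T = true := by decide +kernel

theorem v50 : K.okV 60 ch50 = true := by decide +kernel

end TWP.C4
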