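import Pool.Agent.TWP.C4.D51
import Pool.Agent.TWP.C4.Tab

namespace TWP.C4

theorem k51 : K.checkM4 11 23 60 1024 3072 tab4 ch51.cn ch51.ln ch51.eta ch51.k ch51.etaT ch51.k4
    ch51.L ch51.Q ch51.T = true := by decide +kernel

theorem v51 : K.okV 60 ch51 = true := by decide +kernel

end TWP.C4
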