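import Pool.Agent.TWP.C4.D52
import Pool.Agent.TWP.C4.Tab

namespace TWP.C4

theorem k52 : K.checkM4 11 23 60 1024 3072 tab4 ch52.cn ch52.ln ch52.eta ch52.k ch52.etaT ch52.k4
    ch52.L ch52.Q ch52.T = true := by decide +kernel

theorem v52 : K.okV 60 ch52 = true := by decide +kernel

end TWP.C4
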