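import Pool.Agent.TWP.C4.D53
import Pool.Agent.TWP.C4.Tab

namespace TWP.C4

theorem k53 : K.checkM4 11 23 60 1024 3072 tab4 ch53.cn ch53.ln ch53.eta ch53.k ch53.etaT ch53.k4
    ch53.L ch53.Q ch53.T = true := by decide +kernel

theorem v53 : K.okV 60 ch53 = true := by decide +kernel

end TWP.C4
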