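import Pool.Agent.TWP.C4.D54
import Pool.Agent.TWP.C4.Tab

namespace TWP.C4

theorem k54 : K.checkM4 11 23 60 1024 3072 tab4 ch54.cn ch54.ln ch54.eta ch54.k ch54.etaT ch54.k4
    ch54.L ch54.Q ch54.T = true := by decide +kernel

theorem v54 : K.okV 60 ch54 = true := by decide +kernel

end TWP.C4
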