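import Pool.Agent.TWP.C4.D55
import Pool.Agent.TWP.C4.Tab

namespace TWP.C4

theorem k55 : K.checkM4 11 23 60 1024 3072 tab4 ch55.cn ch55.ln ch55.eta ch55.k ch55.etaT ch55.k4
    ch55.L ch55.Q ch55.T = true := by decide +kernel

theorem v55 : K.okV 60 ch55 = true := by decide +kernel

end TWP.C4
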