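import Pool.Agent.TWP.C4.D6
import Pool.Agent.TWP.C4.Tab

namespace TWP.C4

theorem k6 : K.checkM4 11 23 60 1024 3072 tab4 ch6.cn ch6.ln ch6.eta ch6.k ch6.etaT ch6.k4
    ch6.L ch6.Q ch6.T = true := by decide +kernel

theorem v6 : K.okV 60 ch6 = true := by decide +kernel

end TWP.C4
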