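import Pool.Agent.TWP.C4.D7
import Pool.Agent.TWP.C4.Tab

namespace TWP.C4

theorem k7 : K.checkM4 11 23 60 1024 3072 tab4 ch7.cn ch7.ln ch7.eta ch7.k ch7.etaT ch7.k4
    ch7.L ch7.Q ch7.T = true := by decide +kernel

theorem v7 : K.okV 60 ch7 = true := by decide +kernel

end TWP.C4
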