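import Pool.Agent.TWP.C4.D8
import Pool.Agent.TWP.C4.Tab

namespace TWP.C4

theorem k8 : K.checkM4 11 23 60 1024 3072 tab4 ch8.cn ch8.ln ch8.eta ch8.k ch8.etaT ch8.k4
    ch8.L ch8.Q ch8.T = true := by decide +kernel

theorem v8 : K.okV 60 ch8 = true := by decide +kernel

end TWP.C4
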