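import Pool.Agent.TWP.C4.D9
import Pool.Agent.TWP.C4.Tab

namespace TWP.C4

theorem k9 : K.checkM4 11 23 60 1024 3072 tab4 ch9.cn ch9.ln ch9.eta ch9.k ch9.etaT ch9.k4
    ch9.L ch9.Q ch9.T = true := by decide +kernel

theorem v9 : K.okV 60 ch9 = true := by decide +kernel

end TWP.C4
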