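import Pool.Agent.TWP.Eng4V

namespace TWP.C4

def ch47 : K.Ch4 where
  cn := 1084
  ln := 112
  eta := 4096
  k := 4
  etaT := 123179
  k4 := 2
  s := 28
  RV := 35408
  L := [-6036220946327352982566673526974378199359357686546, -308549131544060760792903521963993937935730164848, 7804554963976154256471419484356034988611833777, -392160122396190064617228308206899768470623321, 24500877247305953467800456331877723399808535, -1706769958288051949820293218715813926560312, 126891942289805340841882074258256807109209, -9848710261827140098613734972033148448800, 787964423002998661298639087190136423275, -64471236876107170095208355025552945786, 5366076968256499810143103814738297786, -452659505628677129893489021672626926, 38596253959058749791580066023109262, -3319770357516052353580114664579460, 287604621931664160637327988756476, -25066319176092637946507602912796, 2195742398966398656196699515914, -193169205384457863435520374162, 17056539921588431953316238392, -1510841466068569834098411305, 134195374329416255434573169, -11947923730587844332883606, 1065990010965576699478381, -95281526970733591042028, 8530299548210056613130, -764783052257607985777, 68653092528797616029, -6169764836258496681, 555022275335802908, -49973392562114172, 4503113551273945, -406065910809160, 36640203495219, -3308024468781, 298816055962, -27004797986, 2441510851, -220818318, 19977439, -1807638, 163526, -14775, 1328, -119, 9, -2, -1, -1, -1, -1, -1, -1,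 -1, -1, -1, -1, -1, -1, -1, -1]
  Q := [1334163880728733243440845608, -9643019600335480467831427887, 34602269867571970194630837558, -82173948195634780678602012197, 145264752174423148767134821900, -203850301529594826078930197428, 236488019166634644972362153551, -233224043343394822860268332961, 199542535771145183398974944624, -150418864434696024297928728229, 101117271920047708046471360106, -61208797647383427380284160445, 33628124166131349722192678022, -16878473730100637939278712452, 7781794952563704726031222169, -3310853167895724690789316749, 1304967272418544267647757254, -478058888751865884720767755, 163222143894159965460728477, -52057393160382222541967655, 15537932292382711631539063, -4346441056119122586706371, 1140637340152408164465195, -280990208737777517218398, 64985324041046703938605, -14103610358983357093079, 2869119901158824687362, -545995689617966084821, 96875463763655687271, -15941753858369882280, 2412460475762097714, -330886312170522782, 40019280667060771, -4009616057671838, 269607869875023, 5458119240359, -5955699178619, 1297333552872, -198916445688, 23869962928, -2157126021, 104934913, 9312193, -3387464, 552547, -63538, 5075, -155, -35, 8, -2, 0, 0, -1, 0, 0, -1, 0, 0, -1]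
  T := [175713204828131891860236908984782915993027593035, -8800628699259642342891268088733716837435499516, 654747999508069763177124137242249148028000579, -53717742639442994488113521637097883616025982, 4598748672059048640885337373152275250337074, -402780894287482731497687042627825306950813, 35762246964516656663265244419589575138071, -3203067419674519938311878356722609293245, 288553963000222979428275637682368145212, -26098136400450286755699430455901149962, 2366932912536260788474532892228377932, -215077756653355838457502881880262631, 19569724044137342242059764440942465, -1782264111172479041374998665501637, 162414842468413265190947941363144, -14806379794951031167330744711463, 1350112941016840080679507556048, -123122220383807986583001455313, 11228164425916843780578210366, -1023901757313651926339469455, 93360693132935268026105361, -8511598581282431546936874, 775870246005368959350981, -70711668343412531872025, 6443367734614240995388, -587019454769859200338, 53469889961824722858, -4869495630333529586, 443382083616975567, -40363982343901958, 3673958952382509, -334350567823366, 30422897069952, -2767790402803, 251769665080, -22898899752, 2082429057, -189353540, 17215796, -1565069, 142262, -12930, 1174, -107, 9, -1, 0, 0, 0, 0, 0, 0, 0, 0, 0, 0, 0, 0, 0, 0]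

end TWP.C4
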