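import Pool.Agent.TWP.Eng4V

namespace TWP.C4

def ch51 : K.Ch4 where
  cn := 1368
  ln := 128
  eta := 4096
  k := 5
  etaT := 2311784
  k4 := 3
  s := 36
  RV := 108189
  L := [-6773962952076110102429024233335431786511638056005, -314541123210789853236020613193922138423150054214, 7248873694437382393978919782936509926211000279, -332495688585364652860391594583899721937749136, 18991013728780532932711300195192834148750032, -1210934721770544389828146314233248029725802, 82493736755331861937440932580290282091369, -5872395463976852843269538331841031975975, 431277772383783843258069192820783147641, -32416207782380735988592914557334006997, 2480283806659341935590662463603598395, -192460879593538935050074025543707972, 15104249277193420485867762798738127, -1196419102938060082420691370469498, 95502332925409072101687717469323, -7672874694289146983560876924437, 619856919831241046752415899655, -50311968420441978338078265155, 4100315632420184802164634908, -335349332832318763319056878, 27511737559839611557192226, -2263162491776338353918439, 186617320836331904675877, -15420842688610994672970, 1276680428472852079518, -105873182316846547886, 8793112720206979762, -731282436966981845, 60891211355015133, -5075738025814328, 423519149987375, -35370037157524, 2956312608264, -247278109677, 20697117723, -1733467646, 145229498, -12193336, 1013661, -89776, 5154, -1610, -434, -233, -106, -48, -22, -10, -5, -3,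 -2, -1, -1, -1, -1, -1, -1, -1, -1, -1]
  Q := [4677336105762857690, -43358283953358107496, 199956118521362166252, -611619098194335888232, 1395781821829133362884, -2534689197372241055691, 3814879766027873847358, -4894039804778417699012, 5462405471721522955422, -5387796738615718367870, 4754259437710698567738, -3790521612526106698268, 2752930363752568034838, -1833689245957029065128, 1126655896706789634024, -641699941044311622808, 340248188336559504950, -168573888917773259846, 78292877694187400950, -34184450280050110168, 14066973503975886059, -5467684469978060028, 2011365005085578737, -701484652472958585, 232301145244551633, -73143362909588882, 21922877997885378, -6261180009705750, 1705369266590593, -443285550303890, 110022565765344, -26083828406729, 5907908236397, -1278396593422, 264220612262, -52134153653, 9812452064, -1759538468, 300065022, -48543133, 7422597, -1067023, 143023, -17636, 1951, -184, 12, 0, -1, 0, 0, -1, 0, 0, -1, 0, 0, -1, 0, 0]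
  T := [156887076039395159683912342470848880761991604113, -7179297068220554320396516154627865257726229992, 489321896292452042453848911774668328821775360, -36852673995420711277841003742195855570304367, 2900887814695498251469572110621698865737730, -233934037285429214081565795645341931975615, 19146505324597744035386406189983406471245, -1582376762106256959235600171954967130420, 131653840952385134998109890328443205582, -11005656935379615341774200822855590117, 923188358590380656022629959714040231, -77635733392529121153348034109767621, 6541040865390985762120918467167474, -551871933851030965503231702830236, 46610204022616534344694292517112, -3939649567809101187367379105912, 333179460792933423287698154007, -28188599604116343636568410572, 2385555438116550195874458395, -201922253583533752329808649, 17093248657476359020596367, -1447055061184834109358750, 122502636939151378473605, -10370271987114252655634, 877823400168426497745, -74299738746910046387, 6288161324888154613, -532122104036806210, 45024265147410471, -3809143661794930, 322219709294350, -27253375669085, 2304793398418, -194889178694, 16477391903, -1392948307, 117742126, -9950863, 841102, -70979, 6043, -488, 52, 0, 2, 0, 0, 0, 0, 0, 0, 0, 0, 0, 0, 0, 0, 0, 0, 0]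

end TWP.C4
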