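import Pool.Agent.TWP.Eng4V

namespace TWP.C4

def ch52 : K.Ch4 where
  cn := 1428
  ln := 112
  eta := 4096
  k := 5
  etaT := 134284586
  k4 := 3
  s := 32
  RV := 92528
  L := [-6919844689159244226493734335856955464925076221277, -269462319005253103879709381202836869361659442108, 5210191791498242468762217051540543201307340676, -200566406345979810063314920224704102878329659, 9616296595569112138861212975621668089529915, -514814001480412294363206385362199674885837, 29450453709914571849224057013291009772177, -1760723399160640301892182825340199480264, 108616273032129116592758953455288154586, -6858261850955309290985800298015569121, 440874584653917099017005020983703138, -28744988776639034912107003724808668, 1895683439814016495710416422527442, -126192989017870691912954306883719, 8466167010171387792356857818271, -571722702499843535758886642088, 38824401463391126209573682839, -2649111694114564520784979827, 181505533567052360782143452, -12480732296891509169788274, 860905857254913048593450, -59548667094835818058529, 4129042210782775303754, -286924595842212781297, 19976726167990358720, -1393251915242953365, 97320884369571606, -6807466717673228, 476769397517893, -33428887196605, 2346278473678, -164831398362, 11589529400, -815506385, 57421090, -4047101, 284707, -20381, 1297, -157, -19, -12, -5, -3, -2, -1, -1, -1, -1, -1, -1, -1, -1, -1, -1, -1, -1, -1, -1, -1]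
  Q := [57874678572644348, -479538722109083765, 1977347172404819495, -5409613806544618655, 11045510078171824384, -17952627733856562849, 24192333027979232703, -27798630684626219388, 27801721289591902444, -24581682164267521076, 19452942240430728144, -13915603852635357103, 9072095486579062751, -5427088878212122966, 2996350400517510189, -1534396405114921744, 731920436447685108, -326433300280981476, 136569295432006778, -53752088850157450, 19954154985676274, -7002531779418629, 2327771300578489, -734299250996034, 220166933874385, -62834600086458, 17090875011406, -4435411247089, 1099338651496, -260448585811, 59021851650, -12801304107, 2658509447, -528805754, 100761462, -18391952, 3215212, -538094, 86154, -13184, 1925, -268, 35, -5, 0, 0, -1, 0, 0, -1, 0, 0, -1, 0, 0, -1, 0, 0, -1, 0]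
  T := [153625636803957507313208473512114605595960633010, -5900745532207875429798603463793659721202511786, 337712932559685893138289698567444009120154544, -21364210745802651319955778808671197464113079, 1412944564488201458803690867746488890010671, -95754287477012822613142865884697777585209, 6587283591629113248091405766889729219173, -457667460985124921931776248557068328158, 32015474638391540824853492895333263967, -2250529304269830477470549438619046271, 158763761603865175447132735584568159, -11229488706025354845780466088119539, 795834592960221165006640763330439, -56484362667058343490825159179297, 4013448213831187095347874947358, -285410884206931474742296137213, 20309259181347559053322154910, -1445826924822167823797214274, 102962934946345426565501882, -7334046581772511068017013, 522480023635277079997466, -37224722350244009139519, 2652206133701377184466, -188964411238472981113, 13462828260527819966, -959104050032465076, 68321953157672427, -4866468306734407, 346594874348293, -24682082676536, 1757481516536, -125126051465, 8907424232, -634021280, 45123608, -3211062, 228490, -16251, 1158, -82, 6, -1, -1, -1, -1, -1, -1, -1, -1, -1, -1, -1, -1, -1, -1, -1, -1, -1, -1, -1]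

end TWP.C4
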