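import Pool.Agent.TWP.Eng4V

namespace TWP.C4

def ch53 : K.Ch4 where
  cn := 1480
  ln := 96
  eta := 4096
  k := 4
  etaT := 5227557696
  k4 := 2
  s := 28
  RV := 25958
  L := [-7043848716158235645990977736861201204803388329950, -226928788314711246676089339694035165383982904542, 3631425330341884605608213492239968302245497827, -115721274419647240561816277286475591445152923, 4593802491296831862122226917658331106099857, -203652363267682977261624399053233407902291, 9648556672125860567898086055028379819936, -477796614077385205071703837057123051062, 24415958932140578904650824800687177585, -1277207029927986393305264901599315232, 68025024012181917338536636714161251, -3675000400458152969898247380191554, 200833150026155202823047747297649, -11079233036913972234797575478623, 616019975930671949304039571685, -34478928246006001422116077256, 1940701421518214977890756666, -109764952940855495953446059, 6234265271871414980544758, -355376534413090459655971, 20322530000325199511885, -1165431344245658435971, 66999974622306359433, -3860299241691795627, 222854669780036338, -12888039112404057, 746513735409091, -43301796129703, 2514958227145, -146237615473, 8512235859, -495955324, 28921290, -1687880, 98568, -5765, 335, -21, 0, -1, -1, -1, -1, -1, -1, -1, -1, -1, -1, -1, -1, -1, -1, -1, -1, -1, -1, -1, -1, -1]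
  Q := [1193303187114517, -8626860457605858, 31044528227276110, -74139822488048883, 132180829606753361, -187640617803211828, 220910396319307361, -221834895122632686, 193945660239341450, -149955198600997495, 103806026258770550, -64979907490003396, 37083776579532490, -19427182519012107, 9396747595467244, -4217442116602031, 1763990759687454, -690164566157160, 253427376050509, -87592562189823, 28570625656177, -8814840731592, 2577793222472, -715852411514, 189086442278, -47577739435, 11419080093, -2617325516, 573510767, -120250398, 24145986, -4646430, 857359, -151768, 25782, -4205, 658, -99, 14, -2, 0, 0, -1, 0, 0, -1, 0, 0, -1, 0, 0, -1, 0, 0, -1, 0, 0, -1, 0, 0]
  T := [150956728243033547970325279241108428059424118737, -4800365676145195071515005612272137829483926222, 227528562993480779100176958892757943090872180, -11923516149848149544399407367312348019534474, 653372087554639018190454029528825791886101, -36693304210569961082444454941253915579512, 2092151693441811989738094278997599709737, -120490327658532315656632168319227560977, 6987600233806608019417711997198980791, -407252622537111916898958495393978413, 23822217523391365199457051178325751, -1397265024231112372287499428969802, 82122555306382396769896213445275, -4834130548609469430712083066452, 284895202250537348980273027728, -16805042511082378879299755381, 991943099617904661264666413,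 -58580419627996187231982971, 3460816544539743672477829, -204512143392984681815764, 12087531001639356220382, -714504742305930195038, 42237539341656656890, -2496892138778857951, 147602644681076489, -8725096913300643, 515726225211657, -30481343975167, 1801398120298, -106449128191, 6289679895, -371592664, 21951123, -1296573, 76575, -4522, 267, -16, 0, -1, -1, -1, -1, -1, -1, -1, -1, -1, -1, -1, -1, -1, -1, -1, -1, -1, -1, -1, -1, -1]

end TWP.C4
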