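import Pool.Agent.TWP.Eng4V

namespace TWP.C4

def ch54 : K.Ch4 where
  cn := 1528
  ln := 96
  eta := 4096
  k := 4
  etaT := 171563221405
  k4 := 2
  s := 29
  RV := 25542
  L := [-7156419438246670043212737508259934937081331397409, -223381918921974212974581938739573347369773620405, 3464488299297469358129071948040169901367406469, -107019683020553745149232972067387330021471862, 4118865315385093024619803874370678063836485, -177053761410624808311258644258313304440350, 8134612090088965214731125277534372650369, -390678373891005101957568796268175898855, 19363806881063459470412341326408667767, -982549349995839779900614550062345352, 50765717479676350935488013197109905, -2660713987876686989503032766075687, 141072807484906025844673438920878, -7551113499527457384335646050500, 407393531055837982291804745125, -22126579649782697910492013058, 1208599105780303911933795064, -66339295665663437651584751, 3656752200510734247624364, -202311483997310762210566, 11229193815286718040504, -625047619812083982763, 34879673830178021291, -1950765622988303069, 109321720053158944, -6137418260944829, 345114934883356, -19434404767542, 1095840178786, -61863977796, 3496192278, -197777904, 11198042, -634598, 35962, -2052, 111, -9, -1, -1, -1, -1, -1, -1, -1, -1, -1, -1, -1, -1, -1, -1, -1, -1, -1, -1, -1, -1, -1, -1]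
  Q := [31212636722658, -229254673195814, 838351914472644, -2034988637799776, 3688456865295122, -5324380408773076, 6375706852666603, -6513583765795420, 5795093189501338, -4560882879042680, 3214686856266283, -2049513524036427, 1191636210933980, -636203438970725, 313714832760916, -143591815596698, 61271591941038, -24466122365871, 9172584810273, -3238297918248, 1079385861295, -340475815622, 101848492992, -28946656006, 7829833071, -2018732523, 496790586, -116834902, 26288025, -5664479, 1169933, -231792, 44082, -8053, 1413, -239, 38, -6, 0, 0, -1, 0, 0, -1, 0, 0, -1, 0, 0, -1, 0, 0, -1, 0, 0, -1, 0, 0, -1, 0]
  T := [148611976827055367219710292917337639722891191597, -4581464151355217681568012690651446680471980612, 210579365536790196257526411287849955268470958, -10703526713375369170767845730231347722228818, 568986292605572445447695966852554311101496, -31003539264864342666049915820015923887362, 1715366213350088962234057073392487291525, -95874775498863775685856850384380019798, 5396503602467253530828155586001085890, -305294990988849475812244531840342214, 17335824366484460894030735659397243, -987141310535243471840752233248181, 56328720246201415212016113610292, -3219427594977052049932937881953, 184230627768284419259800280597, -10552469317743894585935479624, 604864980862883728743816024, -34689575445322399044872446, 1990287946816602938084626,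 -114225162149224707558146, 6556903558101134546816, -376440849535391659385, 21613816326658653435, -1241033733661637137, 71258664982071751, -4091489496559615, 234911959818579, -13486557390721, 774218329324, -44441391457, 2550764429, -146389237, 8400449, -482002, 27653, -1587, 90, -6, 0, -1, -1, -1, -1, -1, -1, -1, -1, -1, -1, -1, -1, -1, -1, -1, -1, -1, -1, -1, -1, -1]

end TWP.C4
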