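import Pool.Agent.TWP.Eng4V

namespace TWP.C4

def ch55 : K.Ch4 where
  cn := 1576
  ln := 96
  eta := 4096
  k := 4
  etaT := 5966338784040
  k4 := 2
  s := 29
  RV := 25158
  L := [-7267257401072933275841541268132007498501113212126, -219995689797898928532882035829026337392361367526, 3309923133558074853301812875365881351994032330, -99205072229025240215740040163327927711214024, 3705107497155604251166273424503824251969871, -154572796121796892198693946529502947682068, 6893097487524886540086420504106456459876, -321356182499915502636297762052460525391, 15462650706412945541399762614858029809, -761739658870546202727418380272751739, 38213092415830399879828979462361278, -1944722126045790459021410119729406, 100125959371935738959340076817337, -5204547867118408538413784383022, 272695429162434754239328666074, -14384390509231275098357388457, 763120973040144378767741669, -40685090077637998121104244, 2178369704638529733605142, -117069993645657401365845, 6312176342073998758765, -341322405318596732199, 18503766690864594355, -1005409605677164974, 54740416186266231, -2985822052466055, 163128850205802, -8925627955134, 489019784388, -26824978638, 1473089999, -80975684, 4455169, -245379, 13498, -756, 36, -5, -2, -1, -1, -1, -1, -1, -1, -1, -1, -1, -1, -1, -1, -1, -1, -1, -1, -1, -1, -1, -1, -1]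
  Q := [770932520419, -5750145865361, 21357239979738, -52665353682706, 96993152944315, -142295453377541, 173209377054728, -179921561250293, 162797051648023, -130336074381449, 93474876373928, -60654482471683, 35903091803451, -19520254562081, 9805202208203, -4573196045208, 1989119273755, -809893698262, 309722559179, -111578640849, 37966248191, -12230572458, 3738072567, -1085996181, 300424639, -79258302, 19969485, -4811214, 1109705, -245289, 52007, -10587, 2070, -390, 70, -13, 2, -1, 0, 0, -1, 0, 0, -1, 0, 0, -1, 0, 0, -1, 0, 0, -1, 0, 0, -1, 0, 0, -1, 0]
  T := [146372586270779545501923037536423992676781971830, -4378637314841438308590945616065786407246459367, 195340347997608909399704910076724529181409544, -9638975228043356930263563334982995286227134, 497513077647694979812684402094761195164007, -26325282142289875204712238942658988034872, 1414588479906026592269458270878988336454, -76795425929688269969092315277275526507, 4198965708819795178434371863393605180, -230773138902734059294230522862367415, 12731482885234674833317505970141563, -704389272022447680872943177677940, 39056146628726188167150003668568, -2169146879116769246653315924187, 120627233596673558532656737053, -6714772475432087468233543948, 374065722638093232353321191, -20850557189863368695514609, 1162730930385968772915910, -64861018821924387148295, 3619030290433227558097,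 -201963649700624374984, 11272013475366629866, -629153702839246929, 35117421858180144, -1960134932352289, 109404777209830, -6106118558246, 340773830634, -19016657631, 1061121682, -59204717, 3302978, -184251, 10277, -574, 31, -2, 0, 0, 0, 0, 0, 0, 0, 0, 0, 0, 0, 0, 0, 0, 0, 0, 0, 0, 0, 0, 0, 0]

end TWP.C4
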