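import Pool.Agent.TWP.C4.D0
import Pool.Agent.TWP.C4.D1
import Pool.Agent.TWP.C4.D2
import Pool.Agent.TWP.C4.D3
import Pool.Agent.TWP.C4.D4
import Pool.Agent.TWP.C4.D5
import Pool.Agent.TWP.C4.D6
import Pool.Agent.TWP.C4.D7
import Pool.Agent.TWP.C4.D8
import Pool.Agent.TWP.C4.D9
import Pool.Agent.TWP.C4.D10
import Pool.Agent.TWP.C4.D11
import Pool.Agent.TWP.C4.D12
import Pool.Agent.TWP.C4.D13
import Pool.Agent.TWP.C4.D14
import Pool.Agent.TWP.C4.D15
import Pool.Agent.TWP.C4.D16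
import Pool.Agent.TWP.C4.D17
import Pool.Agent.TWP.C4.D18
import Pool.Agent.TWP.C4.D19
import Pool.Agent.TWP.C4.D20
import Pool.Agent.TWP.C4.D21
import Pool.Agent.TWP.C4.D22
import Pool.Agent.TWP.C4.D23
import Pool.Agent.TWP.C4.D24
import Pool.Agent.TWP.C4.D25
import Pool.Agent.TWP.C4.D26
import Pool.Agent.TWP.C4.D27
import Pool.Agent.TWP.C4.D28
import Pool.Agent.TWP.C4.D29
import Pool.Agent.TWP.C4.D30
import Pool.Agent.TWP.C4.D31
import Pool.Agent.TWP.C4.D32
import Pool.Agent.TWP.C4.D33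
import Pool.Agent.TWP.C4.D34
import Pool.Agent.TWP.C4.D35
import Pool.Agent.TWP.C4.D36
import Pool.Agent.TWP.C4.D37
import Pool.Agent.TWP.C4.D38
import Pool.Agent.TWP.C4.D39
import Pool.Agent.TWP.C4.D40
import Pool.Agent.TWP.C4.D41
import Pool.Agent.TWP.C4.D42
import Pool.Agent.TWP.C4.D43
import Pool.Agent.TWP.C4.D44
import Pool.Agent.TWP.C4.D45
import Pool.Agent.TWP.C4.D46
import Pool.Agent.TWP.C4.D47
import Pool.Agent.TWP.C4.D48
import Pool.Agent.TWP.C4.D49
import Pool.Agent.TWP.C4.D50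
import Pool.Agent.TWP.C4.D51
import Pool.Agent.TWP.C4.D52
import Pool.Agent.TWP.C4.D53
import Pool.Agent.TWP.C4.D54
import Pool.Agent.TWP.C4.D55

/-! the charts of `β = 4` in increasing order; they cover `[-6272/256, 6400/256]` -/

namespace TWP.C4

def chs : List K.Ch4 := [ch0, ch1, ch2, ch3, ch4, ch5, ch6, ch7, ch8, ch9, ch10, ch11, ch12, ch13, ch14, ch15, ch16, ch17, ch18, ch19, ch20, ch21, ch22, ch23, ch24, ch25, ch26, ch27, ch28, ch29, ch30, ch31, ch32, ch33, ch34, ch35, ch36, ch37, ch38, ch39, ch40, ch41, ch42, ch43, ch44, ch45, ch46, ch47, ch48, ch49, ch50, ch51, ch52, ch53, ch54, ch55]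

/-- the value of `ν` at `t = 25`, in units of `2^-160` -/
def V1 : ℤ := 145289987022874009020948873804517952191795068085

theorem chain4 : K.chainV 32 6400 V1 (2 ^ 45) chs = true := by decide +kernel

end TWP.C4
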