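import Pool.Agent.TWP.C4.K0
import Pool.Agent.TWP.C4.K1
import Pool.Agent.TWP.C4.K2
import Pool.Agent.TWP.C4.K3
import Pool.Agent.TWP.C4.K4
import Pool.Agent.TWP.C4.K5
import Pool.Agent.TWP.C4.K6
import Pool.Agent.TWP.C4.K7
import Pool.Agent.TWP.C4.K8
import Pool.Agent.TWP.C4.K9
import Pool.Agent.TWP.C4.K10
import Pool.Agent.TWP.C4.K11
import Pool.Agent.TWP.C4.K12
import Pool.Agent.TWP.C4.K13
import Pool.Agent.TWP.C4.K14
import Pool.Agent.TWP.C4.K15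
import Pool.Agent.TWP.C4.K16
import Pool.Agent.TWP.C4.K17
import Pool.Agent.TWP.C4.K18
import Pool.Agent.TWP.C4.K19
import Pool.Agent.TWP.C4.K20
import Pool.Agent.TWP.C4.K21
import Pool.Agent.TWP.C4.K22
import Pool.Agent.TWP.C4.K23
import Pool.Agent.TWP.C4.K24
import Pool.Agent.TWP.C4.K25
import Pool.Agent.TWP.C4.K26
import Pool.Agent.TWP.C4.K27
import Pool.Agent.TWP.C4.K28
import Pool.Agent.TWP.C4.K29
import Pool.Agent.TWP.C4.K30
import Pool.Agent.TWP.C4.K31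
import Pool.Agent.TWP.C4.K32
import Pool.Agent.TWP.C4.K33
import Pool.Agent.TWP.C4.K34
import Pool.Agent.TWP.C4.K35
import Pool.Agent.TWP.C4.K36
import Pool.Agent.TWP.C4.K37
import Pool.Agent.TWP.C4.K38
import Pool.Agent.TWP.C4.K39
import Pool.Agent.TWP.C4.K40
import Pool.Agent.TWP.C4.K41
import Pool.Agent.TWP.C4.K42
import Pool.Agent.TWP.C4.K43
import Pool.Agent.TWP.C4.K44
import Pool.Agent.TWP.C4.K45
import Pool.Agent.TWP.C4.K46
import Pool.Agent.TWP.C4.K47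
import Pool.Agent.TWP.C4.K48
import Pool.Agent.TWP.C4.K49
import Pool.Agent.TWP.C4.K50
import Pool.Agent.TWP.C4.K51
import Pool.Agent.TWP.C4.K52
import Pool.Agent.TWP.C4.K53
import Pool.Agent.TWP.C4.K54
import Pool.Agent.TWP.C4.K55
import Pool.Agent.TWP.C4.List
import Pool.Agent.TWP.C4.KN
import Pool.Agent.TWP.StF

/-! the charts of `β = 4`: all checks -/

namespace TWP.C4

theorem rad_ok4 : radOK 1024 23 rad4 tab4 = true := by decide +kernel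

theorem rad_okN : radOK 1024 25 radN tabN = true := by decide +kernel

theorem chs_chk : ∀ c ∈ chs, K.checkM4 11 23 60 1024 3072 tab4 c.cn c.ln c.eta c.k c.etaT c.k4 c.L c.Q
    c.T = true := by
  unfold chs
  refine List.forall_mem_cons.2 ⟨k0, ?_⟩
  refine List.forall_mem_cons.2 ⟨k1, ?_⟩
  refine List.forall_mem_cons.2 ⟨k2, ?_⟩
  refine List.forall_mem_cons.2 ⟨k3, ?_⟩
  refine List.forall_mem_cons.2 ⟨k4, ?_⟩
  refine List.forall_mem_cons.2 ⟨k5, ?_⟩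
  refine List.forall_mem_cons.2 ⟨k6, ?_⟩
  refine List.forall_mem_cons.2 ⟨k7, ?_⟩
  refine List.forall_mem_cons.2 ⟨k8, ?_⟩
  refine List.forall_mem_cons.2 ⟨k9, ?_⟩
  refine List.forall_mem_cons.2 ⟨k10, ?_⟩
  refine List.forall_mem_cons.2 ⟨k11, ?_⟩
  refine List.forall_mem_cons.2 ⟨k12, ?_⟩
  refine List.forall_mem_cons.2 ⟨k13, ?_⟩
  refine List.forall_mem_cons.2 ⟨k14, ?_⟩
  refine List.forall_mem_cons.2 ⟨k15, ?_⟩
  refine List.forall_mem_cons.2 ⟨k16, ?_⟩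
  refine List.forall_mem_cons.2 ⟨k17, ?_⟩
  refine List.forall_mem_cons.2 ⟨k18, ?_⟩
  refine List.forall_mem_cons.2 ⟨k19, ?_⟩
  refine List.forall_mem_cons.2 ⟨k20, ?_⟩
  refine List.forall_mem_cons.2 ⟨k21, ?_⟩
  refine List.forall_mem_cons.2 ⟨k22, ?_⟩
  refine List.forall_mem_cons.2 ⟨k23, ?_⟩
  refine List.forall_mem_cons.2 ⟨k24, ?_⟩
  refine List.forall_mem_cons.2 ⟨k25, ?_⟩
  refine List.forall_mem_cons.2 ⟨k26, ?_⟩
  refine List.forall_mem_cons.2 ⟨k27, ?_⟩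
  refine List.forall_mem_cons.2 ⟨k28, ?_⟩
  refine List.forall_mem_cons.2 ⟨k29, ?_⟩
  refine List.forall_mem_cons.2 ⟨k30, ?_⟩
  refine List.forall_mem_cons.2 ⟨k31, ?_⟩
  refine List.forall_mem_cons.2 ⟨k32, ?_⟩
  refine List.forall_mem_cons.2 ⟨k33, ?_⟩
  refine List.forall_mem_cons.2 ⟨k34, ?_⟩
  refine List.forall_mem_cons.2 ⟨k35, ?_⟩
  refine List.forall_mem_cons.2 ⟨k36, ?_⟩
  refine List.forall_mem_cons.2 ⟨k37, ?_⟩
  refine List.forall_mem_cons.2 ⟨k38, ?_⟩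
  refine List.forall_mem_cons.2 ⟨k39, ?_⟩
  refine List.forall_mem_cons.2 ⟨k40, ?_⟩
  refine List.forall_mem_cons.2 ⟨k41, ?_⟩
  refine List.forall_mem_cons.2 ⟨k42, ?_⟩
  refine List.forall_mem_cons.2 ⟨k43, ?_⟩
  refine List.forall_mem_cons.2 ⟨k44, ?_⟩
  refine List.forall_mem_cons.2 ⟨k45, ?_⟩
  refine List.forall_mem_cons.2 ⟨k46, ?_⟩
  refine List.forall_mem_cons.2 ⟨k47, ?_⟩
  refine List.forall_mem_cons.2 ⟨k48, ?_⟩
  refine List.forall_mem_cons.2 ⟨k49, ?_⟩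
  refine List.forall_mem_cons.2 ⟨k50, ?_⟩
  refine List.forall_mem_cons.2 ⟨k51, ?_⟩
  refine List.forall_mem_cons.2 ⟨k52, ?_⟩
  refine List.forall_mem_cons.2 ⟨k53, ?_⟩
  refine List.forall_mem_cons.2 ⟨k54, ?_⟩
  refine List.forall_mem_cons.2 ⟨k55, ?_⟩
  exact fun x hx => absurd hx List.not_mem_nil

theorem chs_ok : ∀ c ∈ chs, K.okV 60 c = true := by
  unfold chs
  refine List.forall_mem_cons.2 ⟨v0, ?_⟩
  refine List.forall_mem_cons.2 ⟨v1, ?_⟩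
  refine List.forall_mem_cons.2 ⟨v2, ?_⟩
  refine List.forall_mem_cons.2 ⟨v3, ?_⟩
  refine List.forall_mem_cons.2 ⟨v4, ?_⟩
  refine List.forall_mem_cons.2 ⟨v5, ?_⟩
  refine List.forall_mem_cons.2 ⟨v6, ?_⟩
  refine List.forall_mem_cons.2 ⟨v7, ?_⟩
  refine List.forall_mem_cons.2 ⟨v8, ?_⟩
  refine List.forall_mem_cons.2 ⟨v9, ?_⟩
  refine List.forall_mem_cons.2 ⟨v10, ?_⟩
  refine List.forall_mem_cons.2 ⟨v11, ?_⟩
  refine List.forall_mem_cons.2 ⟨v12, ?_⟩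
  refine List.forall_mem_cons.2 ⟨v13, ?_⟩
  refine List.forall_mem_cons.2 ⟨v14, ?_⟩
  refine List.forall_mem_cons.2 ⟨v15, ?_⟩
  refine List.forall_mem_cons.2 ⟨v16, ?_⟩
  refine List.forall_mem_cons.2 ⟨v17, ?_⟩
  refine List.forall_mem_cons.2 ⟨v18, ?_⟩
  refine List.forall_mem_cons.2 ⟨v19, ?_⟩
  refine List.forall_mem_cons.2 ⟨v20, ?_⟩
  refine List.forall_mem_cons.2 ⟨v21, ?_⟩
  refine List.forall_mem_cons.2 ⟨v22, ?_⟩
  refine List.forall_mem_cons.2 ⟨v23, ?_⟩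
  refine List.forall_mem_cons.2 ⟨v24, ?_⟩
  refine List.forall_mem_cons.2 ⟨v25, ?_⟩
  refine List.forall_mem_cons.2 ⟨v26, ?_⟩
  refine List.forall_mem_cons.2 ⟨v27, ?_⟩
  refine List.forall_mem_cons.2 ⟨v28, ?_⟩
  refine List.forall_mem_cons.2 ⟨v29, ?_⟩
  refine List.forall_mem_cons.2 ⟨v30, ?_⟩
  refine List.forall_mem_cons.2 ⟨v31, ?_⟩
  refine List.forall_mem_cons.2 ⟨v32, ?_⟩
  refine List.forall_mem_cons.2 ⟨v33, ?_⟩
  refine List.forall_mem_cons.2 ⟨v34, ?_⟩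
  refine List.forall_mem_cons.2 ⟨v35, ?_⟩
  refine List.forall_mem_cons.2 ⟨v36, ?_⟩
  refine List.forall_mem_cons.2 ⟨v37, ?_⟩
  refine List.forall_mem_cons.2 ⟨v38, ?_⟩
  refine List.forall_mem_cons.2 ⟨v39, ?_⟩
  refine List.forall_mem_cons.2 ⟨v40, ?_⟩
  refine List.forall_mem_cons.2 ⟨v41, ?_⟩
  refine List.forall_mem_cons.2 ⟨v42, ?_⟩
  refine List.forall_mem_cons.2 ⟨v43, ?_⟩
  refine List.forall_mem_cons.2 ⟨v44, ?_⟩
  refine List.forall_mem_cons.2 ⟨v45, ?_⟩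
  refine List.forall_mem_cons.2 ⟨v46, ?_⟩
  refine List.forall_mem_cons.2 ⟨v47, ?_⟩
  refine List.forall_mem_cons.2 ⟨v48, ?_⟩
  refine List.forall_mem_cons.2 ⟨v49, ?_⟩
  refine List.forall_mem_cons.2 ⟨v50, ?_⟩
  refine List.forall_mem_cons.2 ⟨v51, ?_⟩
  refine List.forall_mem_cons.2 ⟨v52, ?_⟩
  refine List.forall_mem_cons.2 ⟨v53, ?_⟩
  refine List.forall_mem_cons.2 ⟨v54, ?_⟩
  refine List.forall_mem_cons.2 ⟨v55, ?_⟩
  exact fun x hx => absurd hx List.not_mem_nil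

theorem chs_pos : ∀ c ∈ chs, 0 < c.ln := by decide +kernel

theorem mem21 : ch21 ∈ chs := by
  unfold chs
  simp only [List.mem_cons, true_or, or_true]

theorem chs_cons : chs = ch0 :: chs.tail := rfl

theorem ch0_left : 4 * ch0.cn - (ch0.ln : ℤ) = -6272 := by decide +kernel

end TWP.C4
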