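import Pool.Agent.TWP.Eng4V

namespace TWP.C4

def ch0 : K.Ch4 where
  cn := -1542
  ln := 104
  eta := 4096
  k := 6
  etaT := 6217080092
  k4 := 2
  s := 0
  RV := 1423230
  L := [-30331103684867533699622269711183752728033116136, -2046007053397918901277394745389754800817584082, -138037184440191679056505248023425610029875780, -9314909014450466057565419042436277633674079, -628750494194481480235355253663360614869124, -42454044201621274379021462834872774189480, -2867641276495836889280053905158177287461, -193784877923735614663335663563032130407, -13101735772380915835225459265036752403, -886291594622121631208173993196027567, -59991350137434208237267470689712221, -4063410600752532477451214914588527, -275428743923752341134339707058004, -18684063504882367797438982854027, -1268541507842522176930922501555, -86206072036646760718079743230, -5864085654944670073197285653, -399321293389694131105802818, -27222994493197419990149902, -1858118269080142720782087, -126989835828215398954690, -8690771347501962540501, -595632893899976253751, -40885473539012234699, -2811061678163635425, -193609120010880608, -13359210033921005, -923598556553355, -63985849335119, -4442593496599, -309170553938, -21568953353, -1508668169, -105818243, -7443934, -525289, -37191, -2643, -189, -14, -2, -1, -1, -1, -1, -1, -1, -1, -1, -1, -1, -1, -1, -1, -1, -1, -1, -1, -1, -1]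
  Q := [5072623457011265404714889328200141142678979577394, -171070410843716766967586582474585269851808820235, -2885230134326771752964079939408188398505950358, -97358008047729545424987693770950367182737897, -4108574423760536286891282007085205863991225, -194316510926008060243366860051609414238531, -9854521010816793784219674784195515966704, -524049049548146838548468411943101303718, -28849451624028390566879896183884011584, -1630918814904274363212914027466675348, -94172533366754635787172556055866740, -5533349137316222526885958763524006, -329952570511982418231986950066476, -19927182994341367912837178584916, -1217064533062524069633301879802, -75084110810248160209873405590, -4674697239731675949592293631, -293506157413253261074078382, -18573327379881667741103162, -1184050762701913098463615, -76014528010524382536410, -4912882120631698844725, -319581374813824262391, -20919115347043606362, -1377682303974274610, -91272285621561131, -6082243882595001, -407646663472647, -27476856872274, -1862465064350, -126948675197, -8701095641, -599677427, -41558235, -2895978, -202928, -14300, -1014, -73, -6, -1, -1, -1, -1, -1, -1, -1, -1, -1, -1, -1, -1, -1, -1, -1, -1, -1, -1, -1, -1]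
  T := [421081330799075400558690449063013281388364056580, 14200651175646065574698357627489879460136260674, 718410859069979830365423418454991118883367422, 40386720765612695776148349129386851272541711, 2384238604225447007539540347037283254391001, 144798486427281574762014454016095835047069, 8958363457036822077714745884398511633717, 561553887252670330376992185087296237509, 35548176341971472435094365571683112316, 2267611407231639765052641650217535173, 145546148787889445845738723905455034, 9389726576525481883597374906875651, 608395659390233652641095984075705, 39568029456107123886234477199113, 2581852291244101384479326248011, 168963865779100788415269534737, 11086920636096630131729205359, 729266425452737120372265244, 48077345804851288534216582, 3176158162602890880250581, 210225501995662996883082, 13935768001789039621164, 924357583586526813935, 61197356781553029396, 4017074458995594232, 256863865517008998, 15238972353837233, 708547231443233, 79513636597, -6806192585518, -1380420232468, -210655832502, -28298197860, -3487359071, -399323564, -42567664, -4206291, -381279, -31061, -2177, -117, -3, 0, -1, -1, -1, -1, -1, -1, -1, -1, -1, -1, -1, -1, -1, -1, -1, -1, -1]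

end TWP.C4
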