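import Pool.Agent.TWP.Eng4V

namespace TWP.C4

def ch50 : K.Ch4 where
  cn := 1304
  ln := 128
  eta := 4096
  k := 5
  etaT := 155807
  k4 := 3
  s := 35
  RV := 110812
  L := [-6614837383969371317482637614582038742052003589324, -322049258733645194220457265548633935419465290316, 7777698806207311772396331417620914353829497698, -373724932792847498938293908171213027521207105, 22355416920861079797559048151725855446174120, -1492541251697028934073857468650100456787497, 106442003154120156400800995840804067992404, -7930834863852504803039713401904370776477, 609543712693827828078284972792020603094, -47939431250793835218139622621694607042, 3837591627094280644091306505258523672, -311511963905623960628065518692091545, 25571620396163255706750429475488771, -2118480971479798765708373294393754, 176846139124629804215232152795691, -14857337679815412744421467400141, 1254986209617691215298757766809, -106499837314539549049985654370, 9073870970522576635268012527, -775782231384654386365322496, 66527098939499837400809659, -5720147032530243019267721, 492979074166610075322263, -42574082250032129041290, 3683468089901674286209, -319209851812733758083, 27703063306695506133, -2407384347619334843, 209445653156587587, -18241252394747255, 1590195035795847, -138745453811924, 12115026885694, -1058609397829, 92560275850, -8097784544, 708819390, -62076369, 5437971, -477020, 41632, -3746, 283, -47, -7, -5, -3, -2, -1, -1, -1, -1, -1,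 -1, -1, -1, -1, -1, -1, -1]
  Q := [456430860845635706703, -4131662728798494562372, 18599557579459655048155, -55513177585052036863283, 123567553407964494160473, -218776375627303188198616, 320888339402289665972409, -400993671103845092497700, 435753368861931826270758, -418248298329792468205324, 358955002149074256678724, -278192812390751195896071, 196279138549327364952071, -126929962773420694949359, 75665974135407531189149, -41783613607805560565506, 21463904957701450968003, -10294252632179753443293, 4624311585588966566563, -1951082894330521338844, 775072034652796704286, -290520864769585134723, 102943090193850131360, -34539277078060898905, 10988577776525551862, -3319010600518603683, 952699803326685054, -260100771695244709, 67583266093883601, -16719968554863256, 3939344842631673, -883883127387405, 188807314753604, -38372837254754, 7412416339856, -1358762788432, 235816852111, -38618495900, 5938101806, -850791228, 112184186, -13313824, 1356957, -103878, 2157, 1206, -317, 53, -8, 0, 0, -1, 0, 0, -1, 0, 0, -1, 0, 0]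
  T := [160603850559818234599130264660469138529346189978, -7697785789979965907296067429002691587331602220, 549263705702684193005141948319434004172077689, -43290858188151504918786327261376776442632972, 3565067764372046279841947764998872865544784, -300697151678290210812565249788957531402113, 25735300412434375083438491299001902522344, -2223670145327461724129268196005962613448, 193393365544403369687541201344368864496, -16896887308112192107845450263381460601, 1481173670075502803454584172544243388, -130151935775020455396463860835184218, 11456789054996246157323429235159516, -1009810748606123084649758023977788, 89090439634763424246806927577788, -7865434148711044604663981438728, 694749660478777360253356254649, -61387751639350753353755545086, 5425399443833055154435064745, -479555377560325230780413822, 42390862567932581745572617, -3747214273325583641150804, 331229790745120525060722, -29276621139403175869318, 2587454627312228011398, -228653054895251163688, 20203572237067558176, -1784934820912076488, 157672927826549964, -13926151352922330, 1229826397588910, -108591401320688, 9587088620145, -846289392373, 74695321958, -6591920985, 581669969, -51320284, 4527447, -399356, 35227, -3105, 274, -24, 2, -1, -1, -1, -1, -1, -1, -1, -1, -1, -1, -1, -1, -1, -1, -1]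

end TWP.C4
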