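import Pool.Agent.TWP.C4.D0
import Pool.Agent.TWP.C4.Tab

namespace TWP.C4

theorem k0 : K.checkM4 11 23 60 1024 3072 tab4 ch0.cn ch0.ln ch0.eta ch0.k ch0.etaT ch0.k4
    ch0.L ch0.Q ch0.T = true := by decide +kernel

theorem v0 : K.okV 60 ch0 = true := by decide +kernel

end TWP.C4
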