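import Pool.Agent.TWP.C4.D15
import Pool.Agent.TWP.C4.Tab

namespace TWP.C4

theorem k15 : K.checkM4 11 23 60 1024 3072 tab4 ch15.cn ch15.ln ch15.eta ch15.k ch15.etaT ch15.k4
    ch15.L ch15.Q ch15.T = true := by decide +kernel

theorem v15 : K.okV 60 ch15 = true := by decide +kernel

end TWP.C4
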