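import Pool.Agent.TWP.C4.D31
import Pool.Agent.TWP.C4.Tab

namespace TWP.C4

theorem k31 : K.checkM4 11 23 60 1024 3072 tab4 ch31.cn ch31.ln ch31.eta ch31.k ch31.etaT ch31.k4
    ch31.L ch31.Q ch31.T = true := by decide +kernel

theorem v31 : K.okV 60 ch31 = true := by decide +kernel

end TWP.C4
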