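import Pool.Agent.TWP.C4.D47
import Pool.Agent.TWP.C4.Tab

namespace TWP.C4

theorem k47 : K.checkM4 11 23 60 1024 3072 tab4 ch47.cn ch47.ln ch47.eta ch47.k ch47.etaT ch47.k4
    ch47.L ch47.Q ch47.T = true := by decide +kernel

theorem v47 : K.okV 60 ch47 = true := by decide +kernel

end TWP.C4
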